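import Pool.Agent.W569.FM.MainD
import Pool.Agent.W655.FM.Depth
import Pool.Agent.W605.FM.Four

/-!
# A character criterion for the weak unramified Fontaine-Mazur conjecture

Let `p` be odd and let `K/F` be an abelian extension of number fields of exponent dividing `p - 1`.
Let `X` be the set of those characters of `Gal(K/F)` with values in `𝔽_p^×` that occur in the Galois
group of the maximal unramified elementary abelian `p`-extension of `K` (by class field theory, in
the class group of `K` modulo `p`).  Assume that there is no nonempty subset `Y` of `X` with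
`Y ⊆ Y Y`.  If `p ^ e`, `e ≥ 1`, kills the Galois groups of all unramified finite abelian
`p`-extensions of `K` (by class field theory, the `p`-part of the class group), then every
continuous representation of the absolute Galois group of `K` into `GL_n(ℤ_p)` that is unramified
everywhere and trivial modulo `p ^ e` is trivial.
-/

set_option autoImplicit false

open NumberField

namespace Pool.Agent.Results.MP_ca71b5_nt.CharacterCriterion

/-- The homomorphism `f` from the absolute Galois group of `K` to a group `E` is unramified at all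
finite primes: for every maximal ideal `P` of the ring of all algebraic integers, the inertia group
at `P` in the absolute Galois group of `K` is mapped to `1`. -/
def Unramified {F : Type} [Field F] {K : IntermediateField F (AlgebraicClosure F)}
    {E : Type} [Group E] (f : K.fixingSubgroup →* E) : Prop :=
  ∀ P : Ideal (𝓞 (AlgebraicClosure F)), P.IsMaximal → ∀ τ : K.fixingSubgroup,
    (∀ x : 𝓞 (AlgebraicClosure F), (τ : Gal(AlgebraicClosure F/F)) • x - x ∈ P) → f τ = 1

/-- `p ^ e` kills the Galois group of every unramified finite abelian extension of `K` of `p`-power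
degree. -/
def AbelianExponent {F : Type} [Field F] (K : IntermediateField F (AlgebraicClosure F))
    (p e : ℕ) : Prop :=
  ∀ (E : Type) [CommGroup E] [Finite E], IsPGroup p E → ∀ f : K.fixingSubgroup →* E,
    IsOpen (f.ker : Set K.fixingSubgroup) → Unramified f → ∀ g, f g ^ (p ^ e) = 1

/-- The character `χ` of `Gal(K/F)` occurs in the maximal unramified elementary abelian
`p`-extension of `K`: there is a nonzero unramified homomorphism `f` with open kernel from the
absolute Galois group of `K` to `ℤ/p` with `f (σ g σ⁻¹) = χ(σ) f(g)` for all `σ` in the absolute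
Galois group of `F`. -/
def Occurs {F : Type} [Field F] (p : ℕ) [Fact p.Prime]
    (K : IntermediateField F (AlgebraicClosure F)) [Normal F K]
    (χ : Gal(K/F) →* (ZMod p)ˣ) : Prop :=
  ∃ f : K.fixingSubgroup →* Multiplicative (ZMod p), IsOpen (f.ker : Set K.fixingSubgroup) ∧
    Unramified f ∧ (∃ g, f g ≠ 1) ∧
    ∀ (σ : Gal(AlgebraicClosure F/F)) (g g' : K.fixingSubgroup),
      (g' : Gal(AlgebraicClosure F/F)) = σ * g * σ⁻¹ →
        Multiplicative.toAdd (f g') =
          (χ (AlgEquiv.restrictNormalHom K σ) : ZMod p) * Multiplicative.toAdd (f g)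

theorem result (p : ℕ) [Fact p.Prime] (hp2 : p ≠ 2) (F : Type) [Field F] [NumberField F]
    (K : IntermediateField F (AlgebraicClosure F)) [FiniteDimensional F K] [Normal F K]
    (hcomm : ∀ σ τ : Gal(K/F), σ * τ = τ * σ) (hexp : ∀ σ : Gal(K/F), σ ^ (p - 1) = 1)
    (hX : ∀ Y : Set (Gal(K/F) →* (ZMod p)ˣ), Y.Nonempty → (∀ χ ∈ Y, Occurs p K χ) →
      ∃ χ ∈ Y, ∀ χ₁ ∈ Y, ∀ χ₂ ∈ Y, χ ≠ χ₁ * χ₂)
    (e : ℕ) (he1 : 1 ≤ e) (he : AbelianExponent K p e)
    (n : ℕ) (ρ : K.fixingSubgroup →* GL (Fin n) ℤ_[p]) (hρ : Continuous ρ)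
    (hur : Unramified ρ)
    (hcong : ∀ g, ∃ α : Matrix (Fin n) (Fin n) ℤ_[p],
      (ρ g : Matrix (Fin n) (Fin n) ℤ_[p]) = 1 + ((p : ℤ_[p]) ^ e) • α) :
    ∀ g, ρ g = 1 := by
  let inst : CommGroup Gal(K/F) := { (inferInstance : Group Gal(K/F)) with mul_comm := hcomm }
  have hp : p.Prime := Fact.out
  refine Pool.Agent.W569.FM.mainD (F := F) (D := Gal(K/F)) Pool.Agent.W655.FM.Depth.main
    Pool.Agent.W605.FM.Four.main (lt_of_le_of_ne hp.two_le (Ne.symm hp2)) hexp
    (AlgEquiv.restrictNormalHom K) (AlgEquiv.restrictNormalHom_surjective _) K.fixingSubgroup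
    (fun σ => ?_) e he1 (fun E _ _ hE f hf hfu g => he E hE f hf hfu g) ?_ ρ hρ hur hcong
  · rw [← IntermediateField.restrictNormalHom_ker, MonoidHom.mem_ker]
  · intro Y hYn hYocc
    obtain ⟨χ', hχ', hno⟩ := hX (MonoidHom.toHomUnits '' Y) (hYn.image _) (by
      rintro _ ⟨χ, hχ, rfl⟩
      obtain ⟨f, hf1, hf2, hf3, hf4⟩ := hYocc χ hχ
      exact ⟨f, hf1, hf2, hf3, hf4⟩)
    obtain ⟨χ, hχ, rfl⟩ := hχ'
    refine ⟨χ, hχ, fun χ₁ h₁ χ₂ h₂ h => ?_⟩
    refine hno _ ⟨χ₁, h₁, rfl⟩ _ ⟨χ₂, h₂, rfl⟩ ?_
    ext σ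
    rw [h]
    rfl

end Pool.Agent.Results.MP_ca71b5_nt.CharacterCriterion
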