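import Pool.Agent.W569.UF.CycC
import Pool.Agent.W569.UF.MainK

/-!
# The weak unramified Fontaine-Mazur conjecture when an automorphism acts on `Cl(K)/p` by a scalar

Let `K/F` be a finite Galois extension of number fields and let `γ` be an element of the absolute
Galois group of `F` which acts on the Galois group of the maximal unramified elementary abelian
`p`-extension of `K` (by class field theory, on the class group of `K` modulo `p`) as multiplication
by `c`, where `c ^ j ≢ c` modulo `p` for `2 ≤ j ≤ N`.  Let `p ^ e` kill the Galois groups of all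
unramified finite abelian `p`-extensions of `K`.  Let `A` be a discrete valuation ring of absolute
ramification index `e0`.  Then every everywhere unramified representation `ρ` of the absolute Galois
group of `K` over `A` of dimension `n` with `n e e0 < N` and with unipotent reduction is trivial;
in all dimensions, `ρ` is trivial if all products of `k` elements `ρ g - 1` are divisible by the
`s`-th power of the maximal ideal, where `k e e0 < s N`.
-/

set_option autoImplicit false

open NumberField IsLocalRing

namespace Pool.Agent.Results.MP_ca71b5_nt.ScalarAction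

/-- The homomorphism `f` from the absolute Galois group of `K` to a group `E` is unramified at all
finite primes: for every maximal ideal `P` of the ring of all algebraic integers, the inertia group
at `P` in the absolute Galois group of `K` is mapped to `1`. -/
def Unramified {F : Type} [Field F] {K : IntermediateField F (AlgebraicClosure F)}
    {E : Type} [Group E] (f : K.fixingSubgroup →* E) : Prop :=
  ∀ P : Ideal (𝓞 (AlgebraicClosure F)), P.IsMaximal → ∀ τ : K.fixingSubgroup,
    (∀ x : 𝓞 (AlgebraicClosure F), (τ : Gal(AlgebraicClosure F/F)) • x - x ∈ P) → f τ = 1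

/-- `p ^ e` kills the Galois group of every unramified finite abelian extension of `K` of `p`-power
degree. -/
def AbelianExponent {F : Type} [Field F] (K : IntermediateField F (AlgebraicClosure F))
    (p e : ℕ) : Prop :=
  ∀ (E : Type) [CommGroup E] [Finite E], IsPGroup p E → ∀ f : K.fixingSubgroup →* E,
    IsOpen (f.ker : Set K.fixingSubgroup) → Unramified f → ∀ g, f g ^ (p ^ e) = 1

/-- The element `γ` of the absolute Galois group of `F` acts as multiplication by `c` on the Galois
group of the maximal unramified elementary abelian `p`-extension of `K`: `f (γ g γ⁻¹) = c f(g)` for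
all unramified homomorphisms `f` with open kernel from the absolute Galois group of `K` to
`ℤ/p`. -/
def ActsAsScalar {F : Type} [Field F] (K : IntermediateField F (AlgebraicClosure F))
    (p : ℕ) (γ : Gal(AlgebraicClosure F/F)) (c : ℕ) : Prop :=
  ∀ f : K.fixingSubgroup →* Multiplicative (ZMod p), IsOpen (f.ker : Set K.fixingSubgroup) →
    Unramified f → ∀ g g' : K.fixingSubgroup,
      (g' : Gal(AlgebraicClosure F/F)) = γ * g * γ⁻¹ → f g' = f g ^ c

/-- Every `ρ g` is unipotent modulo the maximal ideal. -/
def ResiduallyUnipotent {G : Type} [Group G] {n : ℕ} {A : Type} [CommRing A] [IsLocalRing A]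
    (ρ : G →* GL (Fin n) A) : Prop :=
  ∀ g, ∃ M : ℕ, ∀ i j, (((ρ g : Matrix (Fin n) (Fin n) A) - 1) ^ M) i j ∈ maximalIdeal A

/-- All products of `k` matrices of the form `ρ g - 1` are divisible by the `s`-th power of the
maximal ideal. -/
def Deep {G : Type} [Group G] {n : ℕ} {A : Type} [CommRing A] [IsLocalRing A]
    (ρ : G →* GL (Fin n) A) (k s : ℕ) : Prop :=
  ∀ l : List G, l.length = k → ∀ i j,
    (l.map fun g => (ρ g : Matrix (Fin n) (Fin n) A) - 1).prod i j ∈ maximalIdeal A ^ s

theorem result (p : ℕ) (hp : p.Prime) (F : Type) [Field F] [NumberField F]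
    (K : IntermediateField F (AlgebraicClosure F)) [FiniteDimensional F K] [Normal F K]
    (e : ℕ) (he : AbelianExponent K p e) (γ : Gal(AlgebraicClosure F/F)) (c N : ℕ) (hN : 1 ≤ N)
    (hc : ∀ j, 2 ≤ j → j ≤ N → ¬ c ^ j ≡ c [MOD p]) (hγ : ActsAsScalar K p γ c)
    (A : Type) [CommRing A] [IsDomain A] [IsDiscreteValuationRing A] [TopologicalSpace A]
    (hA : IsAdic (maximalIdeal A)) (hfin : Finite (ResidueField A)) (e0 : ℕ)
    (hpA : (p : A) ∈ maximalIdeal A) (h0 : (p : A) ∈ maximalIdeal A ^ e0)
    (h1 : (p : A) ∉ maximalIdeal A ^ (e0 + 1)) (n : ℕ)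
    (ρ : K.fixingSubgroup →* GL (Fin n) A) (hρ : Continuous ρ) (hur : Unramified ρ)
    (h : (ResiduallyUnipotent ρ ∧ n * e * e0 < N) ∨
      ∃ k s : ℕ, 1 ≤ k ∧ Deep ρ k s ∧ k * (e * e0) < s * N) :
    ∀ g, ρ g = 1 := by
  have hnormal : K.fixingSubgroup.Normal := by
    rw [← IntermediateField.restrictNormalHom_ker]
    infer_instance
  have hidx : K.fixingSubgroup.index ≠ 0 := by
    have h2 : IsOpen (K.fixingSubgroup : Set (Gal(AlgebraicClosure F/F))) :=
      IntermediateField.fixingSubgroup_isOpen K
    have : Finite (Gal(AlgebraicClosure F/F) ⧸ K.fixingSubgroup) :=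
      Subgroup.quotient_finite_of_isOpen _ h2
    have h3 : K.fixingSubgroup.FiniteIndex := Subgroup.finiteIndex_of_finite_quotient
    exact h3.index_ne_zero
  have hS : Pool.Agent.W569.UF.Scal (G := Gal(AlgebraicClosure F/F)) K.fixingSubgroup p e c γ
      {τ | ∃ P : Ideal (𝓞 (AlgebraicClosure F)), P.IsMaximal ∧
        Pool.Agent.W569.FM.InInertia P τ} := by
    refine ⟨?_, ?_, ?_⟩
    · rintro g τ ⟨P, hP, hτ⟩
      obtain ⟨P', hP', -, hin⟩ := Pool.Agent.W569.FM.conj_ideal g P hP
      exact ⟨P', hP', hin τ hτ⟩
    · intro E _ _ hE f hf hu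
      exact he E hE f hf fun P hP τ hτ => hu τ ⟨P, hP, hτ⟩
    · intro f hf hu g
      exact hγ f hf (fun P hP τ hτ => hu τ ⟨P, hP, hτ⟩) g _ (MulAut.conjNormal_apply γ g)
  have hreg := Pool.Agent.W569.UF.regOrd_dvr h0 h1
  rcases h with ⟨h2, h3⟩ | ⟨k, s, hk, h2, h3⟩
  · exact Pool.Agent.W569.UF.mainG Pool.Agent.W885.UF.main Pool.Agent.W975.UF.main
      Pool.Agent.W756.UF.main Pool.Agent.W880.UF2.tri hp hA hfin hpA hreg hidx hS h3 hc ρ hρ
      (fun τ ⟨P, hP, hτ⟩ => hur P hP τ hτ) h2
  · exact Pool.Agent.W569.UF.mainK hp hA hfin hpA hreg hidx hS hN hk h3 hc ρ hρ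
      (fun τ ⟨P, hP, hτ⟩ => hur P hP τ hτ) h2

end Pool.Agent.Results.MP_ca71b5_nt.ScalarAction
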